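import Pool.Agent.helper93.FR.Spec

/-!
# Zero patterns of complex polynomials (row fr:ZP)
-/

set_option autoImplicit false
set_option linter.unusedSectionVars false

namespace Pool.Agent.helper79.FR

open Finset

/-- Polynomial functions with degree at most `N` in each variable. -/
noncomputable def Mon (ι : Type) [Fintype ι] (N : ℕ) : Submodule ℂ ((ι → ℂ) → ℂ) :=
  Submodule.span ℂ (Set.range fun (e : ι → Fin (N + 1)) (y : ι → ℂ) => ∏ i, y i ^ (e i : ℕ))

variable {ι : Type} [Fintype ι]

instance Mon_fin (N : ℕ) : FiniteDimensional ℂ (Mon ι N) :=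
  FiniteDimensional.span_of_finite ℂ (Set.finite_range _)

theorem finrank_Mon (N : ℕ) :
    Module.finrank ℂ (Mon ι N) ≤ (N + 1) ^ Fintype.card ι := by
  classical
  refine (finrank_range_le_card _).trans ?_
  rw [Fintype.card_fun, Fintype.card_fin]

theorem mono_mem (N : ℕ) (e : ι → ℕ) (he : ∀ i, e i ≤ N) :
    (fun y : ι → ℂ => ∏ i, y i ^ e i) ∈ Mon ι N :=
  Submodule.subset_span ⟨fun i => ⟨e i, Nat.lt_succ_of_le (he i)⟩, rfl⟩

/-- A polynomial of degree at most `N` in each variable gives a function in `Mon`. -/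
theorem eval_mem (N : ℕ) (p : MvPolynomial ι ℂ) (hp : ∀ i, p.degreeOf i ≤ N) :
    (fun y : ι → ℂ => MvPolynomial.eval y p) ∈ Mon ι N := by
  classical
  have h1 : (fun y : ι → ℂ => MvPolynomial.eval y p) =
      ∑ m ∈ p.support, p.coeff m • (fun y : ι → ℂ => ∏ i, y i ^ m i) := by
    funext y
    rw [MvPolynomial.eval_eq', Finset.sum_apply]
    rfl
  rw [h1]
  refine Submodule.sum_mem _ fun m hm => Submodule.smul_mem _ _ (mono_mem N _ fun i => ?_)
  exact (MvPolynomial.degreeOf_le_iff.1 (hp i)) m hm

theorem ZP : Pool.Agent.helper93.FR.ZP_stmt := by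
  intro P J A _ _ _ f d hd u hu
  classical
  set Z : A → Set J := fun x => {j : J | MvPolynomial.eval (u x) (f j) = 0} with hZ
  set g : A → MvPolynomial P ℂ := fun x => ∏ j ∈ univ.filter (fun j => j ∉ Z x), f j with hg
  have hgd : ∀ x p, (g x).degreeOf p ≤ Fintype.card J * d := by
    intro x p
    refine (MvPolynomial.degreeOf_prod_le p _ _).trans ?_
    refine (Finset.sum_le_card_nsmul _ _ d fun j _ => hd j p).trans ?_
    rw [smul_eq_mul]
    exact Nat.mul_le_mul_right d (Finset.card_le_univ _)
  have hself : ∀ x, MvPolynomial.eval (u x) (g x) ≠ 0 := by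
    intro x
    rw [hg]
    simp only [map_prod]
    rw [Finset.prod_ne_zero_iff]
    intro j hj
    exact (mem_filter.1 hj).2
  have hsub : ∀ x y, MvPolynomial.eval (u y) (g x) ≠ 0 → Z y ⊆ Z x := by
    intro x y h j hj
    by_contra hjx
    apply h
    rw [hg]
    simp only [map_prod]
    exact Finset.prod_eq_zero (mem_filter.2 ⟨mem_univ j, hjx⟩) hj
  have hli : LinearIndependent ℂ (fun x : A =>
      (⟨fun y => MvPolynomial.eval y (g x), eval_mem _ _ (hgd x)⟩ :
        Mon P (Fintype.card J * d))) := by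
    rw [linearIndependent_iff']
    intro s c hc
    by_contra hcon
    push Not at hcon
    obtain ⟨z₀, hz₀, hc₀⟩ := hcon
    have hne : (s.filter fun z => c z ≠ 0).Nonempty := ⟨z₀, mem_filter.2 ⟨hz₀, hc₀⟩⟩
    obtain ⟨x, hx, hmax⟩ := Finset.exists_max_image (s.filter fun z => c z ≠ 0)
      (fun z => (Z z).ncard) hne
    rw [mem_filter] at hx
    have h1 := congrArg (fun w : Mon P (Fintype.card J * d) =>
      (w : (P → ℂ) → ℂ) (u x)) hc
    simp only [Submodule.coe_sum, Submodule.coe_smul, Finset.sum_apply, Pi.smul_apply,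
      smul_eq_mul, Submodule.coe_zero, Pi.zero_apply] at h1
    rw [Finset.sum_eq_single_of_mem x hx.1] at h1
    · rcases mul_eq_zero.1 h1 with h2 | h2
      · exact hx.2 h2
      · exact hself x h2
    · intro y hy hne'
      by_cases hc' : c y = 0
      · rw [hc', zero_mul]
      · rw [mul_eq_zero]
        right
        by_contra h3
        apply hne'
        have hsb := hsub y x h3
        have hle := hmax y (mem_filter.2 ⟨hy, hc'⟩)
        exact (hu (Set.eq_of_subset_of_ncard_le hsb hle (Set.toFinite _))).symm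
  have := hli.fintype_card_le_finrank
  exact this.trans (finrank_Mon _)

end Pool.Agent.helper79.FR
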